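import Pool.Agent.N877.P24.Defs2
import Pool.Agent.Y288.Z7.Cnt
import Pool.Agent.Y155.Z7.XC

/-!
# The number of pairs of vectors of `ℤ³` with given Gram matrix, the first norm `≡ 2 mod 4`
(project P24x, part PCE)
-/

set_option autoImplicit false

namespace Pool.Agent.N878.P24x

open Finset Pool.Agent.Z700 Pool.Agent.Y155.Z7
open Pool.Agent.N877.P24 (S_PCE le)

theorem two_cases (x : ZMod 2) : x = 0 ∨ x = 1 := by
  revert x
  decide

theorem alg2' : ∀ e D' b β γ x y : ZMod 2, b = e * D' → (D' = 1 → β = γ) →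
    (D' = 0 → β = 0 ∧ γ = 1) →
    ((e * x - b = 0 ∧ x ^ 2 + D' = 0 ∧ β + x * y = 0 ∧ γ + y ^ 2 = 0) ↔ (x = D' ∧ y = γ)) := by
  decide

theorem alg2 (e D' b β γ : ZMod 2) (h1 : b = e * D') (h2 : D' = 1 → β = γ)
    (h3 : D' = 0 → β = 0 ∧ γ = 1) (q : ZMod 2 × ZMod 2) :
    (e * q.1 - b = 0 ∧ q.1 ^ 2 + D' = 0 ∧ β + q.1 * q.2 = 0 ∧ γ + q.2 ^ 2 = 0) ↔
      q = (D', γ) := by
  rw [alg2' e D' b β γ q.1 q.2 h1 h2 h3, Prod.ext_iff]

/-- the number of `(μ, ν)` modulo `2` -/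
theorem C_two {n1 e D' β γ D : ℕ} {n2 b : ℤ} (h4 : n1 % 4 = 2) (hD : (D : ℤ) = n1 * n2 - b ^ 2)
    (hDe : D = e ^ 2 * D') (hβ : β ^ 2 + n1 = D' * γ) : C e b D' β γ 2 = 1 := by
  unfold C EQ
  have h2 : (n1 : ZMod 2) = 0 := (ZMod.natCast_eq_zero_iff _ _).2 (by omega)
  have hb : (b : ZMod 2) = (e : ZMod 2) * (D' : ZMod 2) := by
    have h3 := congrArg (fun z : ℤ => (z : ZMod 2)) hD
    rw [hDe] at h3
    push_cast at h3
    rw [h2, zero_mul, zero_sub] at h3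
    have key : ∀ x y z : ZMod 2, x ^ 2 * y = -z ^ 2 → z = x * y := by decide
    exact key _ _ _ h3
  have h1 : (D' : ZMod 2) = 1 → (β : ZMod 2) = (γ : ZMod 2) := by
    intro h
    have h3 := congrArg (fun z : ℕ => (z : ZMod 2)) hβ
    push_cast at h3
    rw [h2, h, add_zero, one_mul] at h3
    have key : ∀ x y : ZMod 2, x ^ 2 = y → x = y := by decide
    exact key _ _ h3
  have h0 : (D' : ZMod 2) = 0 → (β : ZMod 2) = 0 ∧ (γ : ZMod 2) = 1 := by
    intro h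
    have hDd : 2 ∣ D' := (ZMod.natCast_eq_zero_iff _ _).1 h
    obtain ⟨k, hk⟩ := hDd
    have hβ2 : 2 ∣ β := by
      have : 2 ∣ β ^ 2 := by
        have : β ^ 2 + n1 = 2 * (k * γ) := by rw [hβ, hk]; ring
        omega
      exact Nat.prime_two.dvd_of_dvd_pow this
    refine ⟨(ZMod.natCast_eq_zero_iff _ _).2 hβ2, ?_⟩
    obtain ⟨j, hj⟩ := hβ2
    have h5 : 2 * (j ^ 2) + n1 / 2 = k * γ := by
      have h6 : 4 * j ^ 2 + n1 = 2 * (k * γ) := by
        have : β ^ 2 + n1 = 2 * (k * γ) := by rw [hβ, hk]; ring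
        rw [← this, hj]; ring
      omega
    have h7 : (k * γ) % 2 = 1 := by omega
    have h8 : γ % 2 = 1 := by
      rcases Nat.mod_two_eq_zero_or_one γ with h | h
      · exfalso
        rw [Nat.mul_mod, h] at h7
        simp at h7
      · exact h
    have : (γ : ZMod 2) = ((γ % 2 : ℕ) : ZMod 2) := (ZMod.natCast_mod γ 2).symm
    rw [this, h8]
    rfl
  have hall := alg2 (e : ZMod 2) (D' : ZMod 2) (b : ZMod 2) (β : ZMod 2) (γ : ZMod 2) hb h1 h0
  rw [Nat.card_eq_one_iff_unique]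
  refine ⟨⟨fun x y => ?_⟩, ⟨⟨((D' : ZMod 2), (γ : ZMod 2)), (hall _).2 rfl⟩⟩⟩
  apply Subtype.ext
  rw [(hall _).1 x.2, (hall _).1 y.2]

/-- the number of parameters -/
theorem XCE (n1 n2 : ℕ) (b : ℤ) (D : ℕ) (hs : Squarefree n1) (m1 : n1 % 4 = 2) (hD : 0 < D)
    (hDD : (D : ℤ) = n1 * n2 - b ^ 2) :
    ((XX n1 b D).card : ℤ) = ∏ l ∈ D.primeFactors.erase 2, fac n1 D l := by
  have hn1 : 0 < n1 := by omega
  have hdvd : ∀ l, l.Prime → l ∣ n1 → ¬ l ^ 2 ∣ n1 := by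
    intro l hp hl h
    rw [pow_two] at h
    exact hp.one_lt.ne' (Nat.isUnit_iff.1 (hs l h))
  -- the fibres
  have h1 : ∀ t ∈ TT n1 D, (((XX n1 b D).filter fun q => (q.1, q.2.2.1) = t).card : ℤ) =
      ∏ l ∈ n1.primeFactors.erase 2, if l ∣ D then 1 + hh n1 D l else 1 := by
    intro t ht
    obtain ⟨g1, g2, g3, g4, g5⟩ := (mem_TT n1 D t).1 ht
    have hD' : 0 < D / t.1 ^ 2 := Nat.div_pos (Nat.le_of_dvd hD g3) (pow_pos g2 2)
    have hγ : t.2 ^ 2 + n1 = D / t.1 ^ 2 * ((n1 + t.2 ^ 2) / (D / t.1 ^ 2)) := by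
      rw [Nat.mul_div_cancel' (by rw [add_comm]; exact g5), add_comm]
    have h2m : 2 ∈ n1.primeFactors := Nat.mem_primeFactors.2 ⟨Nat.prime_two, by omega, hn1.ne'⟩
    rw [fib n1 hn1 b D t ht, C_prod _ _ _ _ _ hD' hs, ← Finset.mul_prod_erase _ _ h2m,
      C_two (n2 := n2) m1 hDD (Nat.mul_div_cancel' g3).symm hγ, one_mul, Nat.cast_prod]
    refine Finset.prod_congr rfl fun l hl => ?_
    have hl0 := Finset.mem_erase.1 hl
    have hl1 := Nat.prime_of_mem_primeFactors hl0.2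
    have hl2 := Nat.dvd_of_mem_primeFactors hl0.2
    exact C_local (n2 := n2) hl1 hl0.1 hl2 (hdvd l hl1 hl2) hD hDD
      (Nat.mul_div_cancel' g3).symm hγ
  have h2 : ((XX n1 b D).card : ℤ) = (TT n1 D).card *
      ∏ l ∈ n1.primeFactors.erase 2, (if l ∣ D then 1 + hh n1 D l else 1) := by
    rw [Finset.card_eq_sum_card_fiberwise (f := fun q => (q.1, q.2.2.1)) (t := TT n1 D), Nat.cast_sum,
      Finset.sum_congr rfl h1, Finset.sum_const, nsmul_eq_mul]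
    intro q hq
    have hq := Finset.mem_coe.1 hq
    unfold XX at hq
    have hq := Finset.mem_filter.1 hq
    have hq3 := Finset.mem_product.1 hq.1
    exact Finset.mem_coe.2 ((mem_TT n1 D _).2 ⟨Finset.mem_range.1 hq3.1, hq.2.1, hq.2.2.1,
      hq.2.2.2.1, hq.2.2.2.2.2.2.1⟩)
  -- the sum over `e`
  have h3 : ((S n1 D : ℕ) : ℤ) = ∏ l ∈ D.primeFactors.erase 2,
      (if l ∣ n1 then 1 else ∑ j ∈ range (D.factorization l + 1), (jacobiSym (-(n1 : ℤ)) l) ^ j) := by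
    have e1 : ∏ p ∈ D.primeFactors, S n1 (p ^ D.factorization p) =
        ∏ p ∈ D.primeFactors.erase 2, S n1 (p ^ D.factorization p) := by
      by_cases h2D : 2 ∈ D.primeFactors
      · rw [← Finset.mul_prod_erase _ _ h2D,
          S_ram n1 hn1 2 Nat.prime_two (by omega) (by norm_num; omega), one_mul]
      · rw [Finset.erase_eq_of_notMem h2D]
    rw [S_prod n1 hn1 D hD, e1, Nat.cast_prod]
    refine Finset.prod_congr rfl fun l hl => ?_
    have hl0 := Finset.mem_erase.1 hl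
    have hl1 := Nat.prime_of_mem_primeFactors hl0.2
    split_ifs with h
    · rw [S_ram n1 hn1 l hl1 h (hdvd l hl1 h), Nat.cast_one]
    · exact S_unram n1 hn1 l hl1 hl0.1 h _
  have h4 : ∏ l ∈ n1.primeFactors.erase 2, (if l ∣ D then 1 + hh n1 D l else 1) =
      ∏ l ∈ D.primeFactors.erase 2, (if l ∣ n1 then 1 + hh n1 D l else 1) := by
    rw [← Finset.prod_filter, ← Finset.prod_filter]
    refine Finset.prod_congr ?_ fun _ _ => rfl
    ext l
    rw [Finset.mem_filter, Finset.mem_filter, Finset.mem_erase, Finset.mem_erase,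
      Nat.mem_primeFactors, Nat.mem_primeFactors]
    constructor
    · rintro ⟨⟨a0, a1, a2, _⟩, a4⟩
      exact ⟨⟨a0, a1, a4, hD.ne'⟩, a2⟩
    · rintro ⟨⟨a0, a1, a4, _⟩, a2⟩
      exact ⟨⟨a0, a1, a2, hn1.ne'⟩, a4⟩
  rw [h2, card_TT n1 D hD, h3, h4, ← Finset.prod_mul_distrib]
  refine Finset.prod_congr rfl fun l _ => ?_
  unfold fac
  split_ifs with h
  · rw [one_mul]
  · rw [mul_one]

/-- PCE -/
theorem t_PCE : S_PCE := by
  intro n1 n2 b D hs m1 hD hDD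
  rw [Pool.Agent.Y288.Z7.t_CNT' n1 n2 b D hs hD hDD]
  unfold le
  rw [← XCE n1 n2 b D hs m1 hD hDD]
  push_cast
  ring

end Pool.Agent.N878.P24x

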